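import Pool.Agent.H34.FS.Targets

/-!
# Row SPL of hfs_modules: a polynomial condition for smoothness
-/

set_option autoImplicit false

open Finset Pool.Agent.H32.RQ Pool.Agent.H34.FQ

namespace Pool.Agent.H44.HFS

open Pool.Agent.H34.FS Pool.Agent.H13.RQ Polynomial

section

variable {R : Type} [CommRing R] {r : ℕ}

/-- the pair `(G_0, G_1 + k G_0)` -/
private def HH (F : Fin 2 → Mon r → ℤ) (k : ℤ) (L : Fin 2 → Fin (r + 1) → R) :
    Fin 2 → Mon (r + 1) → R :=
  ![gf (cm R F 0) (L 0), fun p => gf (cm R F 1) (L 1) p + (k : R) * gf (cm R F 0) (L 0) p]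

private theorem gf_map {R' : Type} [CommRing R'] (φ : R →+* R') (F : Fin 2 → Mon r → ℤ) (i : Fin 2)
    (l : Fin (r + 1) → R) (p : Mon (r + 1)) :
    φ (gf (cm R F i) l p) = gf (cm R' F i) (fun j => φ (l j)) p := by
  unfold gf cm
  by_cases h : p.1.1 = 0
  · rw [dif_pos h, dif_pos h]
  · rw [dif_neg h, dif_neg h]
    exact map_intCast φ _

private theorem HH_map {R' : Type} [CommRing R'] (φ : R →+* R') (F : Fin 2 → Mon r → ℤ) (k : ℤ)
    (L : Fin 2 → Fin (r + 1) → R) :
    (fun i p => φ (HH F k L i p)) = HH F k (fun i j => φ (L i j)) := by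
  funext i p
  fin_cases i
  · exact gf_map φ F 0 (L 0) p
  · change φ (gf (cm R F 1) (L 1) p + (k : R) * gf (cm R F 0) (L 0) p) = _
    rw [map_add, map_mul, gf_map φ F 0, gf_map φ F 1, map_intCast]
    rfl

private theorem qf_lin {s : ℕ} (f g : Mon s → R) (k : R) (x : Fin s → R) :
    qf (fun p => f p + k * g p) x = qf f x + k * qf g x := by
  unfold qf
  rw [Finset.mul_sum, ← Finset.sum_add_distrib]
  refine Finset.sum_congr rfl fun p _ => ?_
  ring

private theorem dq_lin {s : ℕ} (f g : Mon s → R) (k : R) (x : Fin s → R) (j : Fin s) :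
    dq (fun p => f p + k * g p) x j = dq f x j + k * dq g x j := by
  unfold dq
  rw [Finset.mul_sum, ← Finset.sum_add_distrib]
  refine Finset.sum_congr rfl fun p _ => ?_
  ring

private theorem Hs_eq {s : ℕ} (f : Mon s → R) (j l : Fin s) :
    Hs f j l = dq f (Pi.single l 1) j := by
  rw [← Hs_mulVec]
  rw [Finset.sum_eq_single l]
  · rw [Pi.single_eq_same, mul_one]
  · intro b _ hb
    rw [Pi.single_eq_of_ne hb, mul_zero]
  · intro h
    exact absurd (Finset.mem_univ _) h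

private theorem single_zero : (Pi.single 0 1 : Fin (r + 1) → R) = cv 1 0 := by
  funext j
  refine Fin.cases ?_ (fun i => ?_) j
  · rw [Pi.single_eq_same]; rfl
  · rw [Pi.single_eq_of_ne (Fin.succ_ne_zero i)]; rfl

private theorem single_succ (m : Fin r) :
    (Pi.single m.succ 1 : Fin (r + 1) → R) = cv 0 (Pi.single m 1) := by
  funext j
  refine Fin.cases ?_ (fun i => ?_) j
  · rw [Pi.single_eq_of_ne (Fin.succ_ne_zero m).symm]; rfl
  · change _ = (Pi.single m 1 : Fin r → R) i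
    by_cases h : i = m
    · rw [h, Pi.single_eq_same, Pi.single_eq_same]
    · rw [Pi.single_eq_of_ne h, Pi.single_eq_of_ne]
      exact fun h' => h (Fin.succ_injective _ h')

private theorem dq_zero {s : ℕ} (f : Mon s → R) (k : Fin s) : dq f 0 k = 0 := by
  unfold dq
  refine Finset.sum_eq_zero fun p _ => ?_
  simp

/-- the Hessian of `f (x) + a c ^ 2` -/
private theorem Hs_gf (hGGE : T_GGE) (f : Mon r → R) (a : R) :
    (∀ k m : Fin r, Hs (gf f (cv a 0)) k.succ m.succ = Hs f k m) ∧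
    (∀ k : Fin r, Hs (gf f (cv a 0)) k.succ 0 = 0) ∧
    (∀ m : Fin r, Hs (gf f (cv a 0)) 0 m.succ = 0) ∧
    Hs (gf f (cv a 0)) 0 0 = 2 * a := by
  refine ⟨fun k m => ?_, fun k => ?_, fun m => ?_, ?_⟩
  · rw [Hs_eq, single_succ, (hGGE R r f (cv a 0) 0 (Pi.single m 1)).2.1 k, zero_mul, add_zero,
      Hs_eq]
  · rw [Hs_eq, single_zero, (hGGE R r f (cv a 0) 1 0).2.1 k, dq_zero]
    change (0 : R) + 1 * (0 : R) = 0
    ring
  · rw [Hs_eq, single_succ, (hGGE R r f (cv a 0) 0 (Pi.single m 1)).2.2.1, Fin.sum_univ_succ]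
    have h1 : ∀ i : Fin r, (cv a 0 : Fin (r + 1) → R) i.succ *
        (cv (0 : R) (Pi.single m 1) : Fin (r + 1) → R) i.succ = 0 := by
      intro i
      change (0 : R) * _ = 0
      rw [zero_mul]
    rw [Finset.sum_eq_zero fun i _ => h1 i]
    change a * (0 : R) + 0 + 0 * _ = 0
    ring
  · rw [Hs_eq, single_zero, (hGGE R r f (cv a 0) 1 0).2.2.1, Fin.sum_univ_succ]
    have h1 : ∀ i : Fin r, (cv a 0 : Fin (r + 1) → R) i.succ *
        (cv (1 : R) (0 : Fin r → R) : Fin (r + 1) → R) i.succ = 0 := by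
      intro i
      change (0 : R) * _ = 0
      rw [zero_mul]
    rw [Finset.sum_eq_zero fun i _ => h1 i]
    change a * (1 : R) + 0 + 1 * a = 2 * a
    ring

/-- block determinants -/
private theorem det_block {S : Type} [CommRing S] (A : Matrix (Fin (r + 1)) (Fin (r + 1)) S)
    (B : Matrix (Fin r) (Fin r) S) (h : ∀ k m : Fin r, A k.succ m.succ = B k m)
    (h0 : ∀ m : Fin r, A 0 m.succ = 0) : A.det = A 0 0 * B.det := by
  rw [Matrix.det_succ_row_zero, Fin.sum_univ_succ]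
  have h1 : ∀ i : Fin r, (-1 : S) ^ (i.succ : ℕ) * A 0 i.succ *
      (A.submatrix Fin.succ i.succ.succAbove).det = 0 := by
    intro i
    rw [h0 i, mul_zero, zero_mul]
  rw [Finset.sum_eq_zero fun i _ => h1 i, add_zero]
  have h2 : A.submatrix Fin.succ (Fin.succAbove 0) = B := by
    ext i j
    rw [Matrix.submatrix_apply, Fin.zero_succAbove, h]
  rw [h2]
  simp

/-- the combination of the pair with a diagonal extension -/
private theorem gf_comb (f g : Mon r → R) (k a b c : R) (hc : b + k * a = c) :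
    (fun p => gf g (cv b 0) p + k * gf f (cv a 0) p) =
      gf (fun p => g p + k * f p) (cv c 0) := by
  funext p
  unfold gf
  by_cases h : p.1.1 = 0
  · rw [dif_pos h, dif_pos h, dif_pos h]
    refine Fin.cases ?_ (fun i => ?_) p.1.2
    · exact hc
    · change (0 : R) + k * (0 : R) = 0
      ring
  · rw [dif_neg h, dif_neg h, dif_neg h]

end

/-- the discriminant of the special extension -/
private theorem dsc_ne (hGGE : T_GGE) {r : ℕ} (F : Fin 2 → Mon r → ℤ) (k : ℤ)
    (hdet : (Hs (fun p => (F 1 p : ℚ) + k * F 0 p)).det ≠ 0)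
    (hsep : (pen ![fun p => (F 0 p : ℚ), fun p => (F 1 p : ℚ) + k * F 0 p]).det.Separable) :
    ∃ L : Fin 2 → Fin (r + 1) → ℚ, dsc (HH F k L) ≠ 0 := by
  obtain ⟨χ, hχ⟩ : ∃ χ, χ = (pen ![fun p => (F 0 p : ℚ), fun p => (F 1 p : ℚ) + k * F 0 p]).det :=
    ⟨_, rfl⟩
  rw [← hχ] at hsep
  obtain ⟨x1, hx1⟩ : ∃ x1 : ℚ, χ.eval x1 ≠ 0 := by
    by_contra hcon
    push Not at hcon
    exact hsep.ne_zero (Polynomial.funext fun x => by rw [hcon x, eval_zero])
  refine ⟨![cv (-x1) 0, cv (1 + k * x1) 0], ?_⟩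
  have e0 : HH F k (![cv (-x1) 0, cv (1 + k * x1) 0] : Fin 2 → Fin (r + 1) → ℚ) 0 =
      gf (fun p => (F 0 p : ℚ)) (cv (-x1) 0) := rfl
  have e1 : HH F k (![cv (-x1) 0, cv (1 + k * x1) 0] : Fin 2 → Fin (r + 1) → ℚ) 1 =
      gf (fun p => (F 1 p : ℚ) + k * F 0 p) (cv 1 0) := by
    change (fun p => gf (fun p => (F 1 p : ℚ)) (cv (1 + k * x1) 0) p +
      (k : ℚ) * gf (fun p => (F 0 p : ℚ)) (cv (-x1) 0) p) = _
    exact gf_comb _ _ _ _ _ _ (by ring)
  obtain ⟨H, hH⟩ : ∃ H, H = HH F k (![cv (-x1) 0, cv (1 + k * x1) 0] :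
    Fin 2 → Fin (r + 1) → ℚ) := ⟨_, rfl⟩
  rw [← hH] at e0 e1 ⊢
  obtain ⟨a1, -, a3, a4⟩ := Hs_gf hGGE (fun p => (F 0 p : ℚ)) (-x1)
  obtain ⟨b1, -, b3, b4⟩ := Hs_gf hGGE (fun p => (F 1 p : ℚ) + k * F 0 p) 1
  have hd1 : (Hs (H 1)).det ≠ 0 := by
    rw [e1, det_block _ _ b1 b3, b4]
    exact mul_ne_zero (by norm_num) hdet
  have hpen : (pen H).det = C 2 * ((X - C x1) * χ) := by
    rw [det_block (pen H) (pen ![fun p => (F 0 p : ℚ), fun p => (F 1 p : ℚ) + k * F 0 p])
      (fun i j => ?_) (fun j => ?_), ← hχ, pen_apply, e0, e1, a4, b4]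
    · rw [C_mul, C_mul, C_neg, C_1]
      ring
    · rw [pen_apply, pen_apply, e0, e1, a1, b1]
      rfl
    · rw [pen_apply, e0, e1, a3, b3, C_0]
      ring
  have hsepH : (pen H).det.Separable := by
    rw [hpen]
    have h1 : ((X - C x1) * χ).Separable := by
      refine (separable_X_sub_C).mul hsep ?_
      rw [(irreducible_X_sub_C x1).coprime_iff_not_dvd, dvd_iff_isRoot]
      exact hx1
    unfold Polynomial.Separable
    rw [derivative_C_mul, isCoprime_mul_unit_left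
      (isUnit_C.2 (isUnit_iff_ne_zero.2 (by norm_num : (2 : ℚ) ≠ 0)))]
    exact h1
  have hdeg : (pen H).det.natDegree = r + 1 := by
    refine le_antisymm (chi_natDegree H) ?_
    refine le_natDegree_of_ne_zero ?_
    have h2 := Polynomial.coeff_det_X_add_C_card (Hs (H 1)) (Hs (H 0))
    rw [Fintype.card_fin] at h2
    have h3 : (pen H).det.coeff (r + 1) = (Hs (H 1)).det := h2
    rw [h3]
    exact hd1
  have hdeg' : (derivative (pen H).det).natDegree = r + 1 - 1 := by
    rw [natDegree_derivative, hdeg]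
  have hr := resultant_ne_zero _ _ hsepH
  rw [hdeg, hdeg'] at hr
  unfold dsc
  exact mul_ne_zero hr hd1

theorem pf_SPL (hDSV : T_DSV) (hGGE : T_GGE) : T_SPL := by
  intro r F hr hF
  obtain ⟨k, hdet, hsep⟩ := hDSV r F hF
  obtain ⟨L0, hL0⟩ := dsc_ne hGGE F k hdet hsep
  obtain ⟨XX, hXX⟩ : ∃ XX : Fin 2 → Fin (r + 1) → MvPolynomial (Fin 2 × Fin (r + 1)) ℤ,
    XX = fun i j => MvPolynomial.X (i, j) := ⟨_, rfl⟩
  obtain ⟨P, hP⟩ : ∃ P, P = dsc (HH F k XX) := ⟨_, rfl⟩
  refine ⟨P, ?_, ?_⟩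
  · intro h0
    apply hL0
    have h1 := dsc_map (MvPolynomial.eval₂Hom (Int.castRingHom ℚ)
      (fun q : Fin 2 × Fin (r + 1) => L0 q.1 q.2)) (HH F k XX)
    rw [← hP, h0, map_zero, HH_map] at h1
    have h2 : (fun (i : Fin 2) (j : Fin (r + 1)) => (MvPolynomial.eval₂Hom (Int.castRingHom ℚ)
      (fun q : Fin 2 × Fin (r + 1) => L0 q.1 q.2)) (XX i j)) = L0 := by
      funext i p
      rw [hXX]
      exact MvPolynomial.eval₂Hom_X' _ _ _
    rw [h2] at h1
    exact h1.symm
  · intro L hL x hx hq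
    have h1 := dsc_map ((Int.castRingHom (AlgebraicClosure ℚ)).comp
      (MvPolynomial.eval fun q : Fin 2 × Fin (r + 1) => L q.1 q.2)) (HH F k XX)
    rw [HH_map, ← hP] at h1
    have h2 : (fun (i : Fin 2) (j : Fin (r + 1)) => ((Int.castRingHom (AlgebraicClosure ℚ)).comp
      (MvPolynomial.eval fun q : Fin 2 × Fin (r + 1) => L q.1 q.2)) (XX i j)) =
      fun i j => ((L i j : ℤ) : AlgebraicClosure ℚ) := by
      funext i j
      rw [hXX, RingHom.comp_apply, MvPolynomial.eval_X]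
      rfl
    rw [h2] at h1
    have h3 : dsc (HH F k fun i j => ((L i j : ℤ) : AlgebraicClosure ℚ)) ≠ 0 := by
      rw [← h1, RingHom.comp_apply]
      exact Int.cast_ne_zero.2 hL
    -- the pair over the algebraic closure
    have hg : ∀ i, cm (AlgebraicClosure ℚ) (gg F L) i =
        gf (cm (AlgebraicClosure ℚ) F i) (fun j => ((L i j : ℤ) : AlgebraicClosure ℚ)) := by
      intro i
      funext p
      unfold cm gg gf
      by_cases h : p.1.1 = 0
      · rw [dif_pos h, dif_pos h]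
      · rw [dif_neg h, dif_neg h]
    have h4 := smooth_of_dsc (by omega : 2 ≤ r + 1)
      (HH F k fun i j => ((L i j : ℤ) : AlgebraicClosure ℚ)) h3 x hx (by
        change qf (fun p => gf (cm (AlgebraicClosure ℚ) F 1)
          (fun j => ((L 1 j : ℤ) : AlgebraicClosure ℚ)) p + (k : AlgebraicClosure ℚ) *
          gf (cm (AlgebraicClosure ℚ) F 0) (fun j => ((L 0 j : ℤ) : AlgebraicClosure ℚ)) p) x = 0
        rw [qf_lin, ← hg, ← hg, hq 0, hq 1, mul_zero, add_zero])
    have h5 : dq (HH F k (fun i j => ((L i j : ℤ) : AlgebraicClosure ℚ)) 0) x =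
        dq (cm (AlgebraicClosure ℚ) (gg F L) 0) x := by
      rw [hg 0]
      rfl
    have h6 : dq (HH F k (fun i j => ((L i j : ℤ) : AlgebraicClosure ℚ)) 1) x =
        fun j => dq (cm (AlgebraicClosure ℚ) (gg F L) 1) x j +
          (k : AlgebraicClosure ℚ) * dq (cm (AlgebraicClosure ℚ) (gg F L) 0) x j := by
      rw [hg 0, hg 1]
      funext j
      rw [← dq_lin]
      rfl
    rw [h5, h6, LinearIndependent.pair_iff] at h4
    rw [LinearIndependent.pair_iff]
    intro a b hab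
    have h7 := h4 (a - b * k) b (by
      rw [← hab]
      funext j
      simp only [Pi.add_apply, Pi.smul_apply, smul_eq_mul]
      ring)
    obtain ⟨h8, h9⟩ := h7
    rw [h9, zero_mul, sub_zero] at h8
    exact ⟨h8, h9⟩

end Pool.Agent.H44.HFS
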